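import Pool.Agent.Helper19.Engel.NoCross

set_option autoImplicit false

/-!
Every right order on a k-Engel group is a Conrad order.
-/

namespace Pool.Agent.Helper19.Engel

variable {G : Type*} [Group G] [LinearOrder G]

/-- The action of a right ordered group on its lower sets: `g • S = {x | x * g ∈ S}`. -/
@[reducible] def lowerAction (hr : ∀ a b c : G, a ≤ b → a * c ≤ b * c) :
    MulAction G (LowerSet G) where
  smul g S := ⟨{x | x * g ∈ S}, by
    intro a b hab ha
    exact S.lower (hr _ _ g hab) ha⟩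
  one_smul S := by
    ext x
    show x * 1 ∈ S ↔ x ∈ S
    rw [mul_one]
  mul_smul g h S := by
    ext x
    show x * (g * h) ∈ S ↔ (x * g) * h ∈ S
    rw [mul_assoc]

theorem conrad_linear {k : ℕ} (hE : ∀ x y : G, (eng y)^[k] x = 1)
    (hr : ∀ a b c : G, a ≤ b → a * c ≤ b * c) (a b : G) (ha : 1 < a) (hb : 1 < b) :
    ∃ n : ℕ, 0 < n ∧ a < a ^ n * b := by
  let _ := lowerAction hr
  have hrl : ∀ a b c : G, a < b → a * c < b * c := by
    intro a b c hab
    refine lt_of_le_of_ne (hr _ _ c hab.le) ?_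
    intro h
    exact hab.ne (mul_right_cancel h)
  have hm : Mono G (LowerSet G) := by
    intro g S S' hSS' x hx
    exact hSS' hx
  have hIic : ∀ g z : G, g • LowerSet.Iic z = LowerSet.Iic (z * g⁻¹) := by
    intro g z
    ext x
    show x * g ∈ LowerSet.Iic z ↔ x ∈ LowerSet.Iic (z * g⁻¹)
    rw [LowerSet.mem_Iic_iff, LowerSet.mem_Iic_iff]
    constructor
    · intro h
      have := hr _ _ g⁻¹ h
      simpa using this
    · intro h
      have := hr _ _ g h
      simpa using this
  have hlt : ∀ z w : G, z < w → LowerSet.Iic z < LowerSet.Iic w := by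
    intro z w hzw
    rw [lt_iff_not_ge]
    intro hle
    have : w ∈ LowerSet.Iic z := hle (show w ∈ LowerSet.Iic w from LowerSet.mem_Iic_iff.2 le_rfl)
    rw [LowerSet.mem_Iic_iff] at this
    exact absurd hzw (not_lt.2 this)
  have hle' : ∀ z w : G, z ≤ w → LowerSet.Iic z ≤ LowerSet.Iic w := by
    intro z w hzw
    rcases hzw.eq_or_lt with h | h
    · rw [h]
    · exact (hlt _ _ h).le
  by_contra hcon
  push Not at hcon
  -- powers of a
  have hpow : ∀ n : ℕ, (a⁻¹) ^ n • LowerSet.Iic (1 : G) = LowerSet.Iic (a ^ n) := by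
    intro n
    rw [hIic]
    simp
  have hab : ∀ n : ℕ, a ^ n * b ≤ a := by
    intro n
    rcases Nat.eq_zero_or_pos n with rfl | hn
    · have h1 : b < a * b := by simpa using hrl _ _ b ha
      have h2 := hcon 1 Nat.one_pos
      simp only [pow_one] at h2
      simpa using (h1.trans_le h2).le
    · exact hcon n hn
  have h1 : (a⁻¹) • LowerSet.Iic (1 : G) ≠ LowerSet.Iic 1 := by
    rw [hIic]
    simpa using (hlt _ _ ha).ne'
  obtain ⟨a', q, hg, hg1, hg2⟩ := exists_comp hm h1
  have hdir : ∀ z, a' < z → z < q → z < a⁻¹ • z := by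
    rcases direction hm hg with hd | hd
    · exact hd
    · exfalso
      have := hd _ hg1 hg2
      rw [hIic] at this
      have h3 := hlt _ _ ha
      simp only [inv_inv, one_mul] at this
      exact absurd (this.trans h3) (lt_irrefl _)
  have hgr : LowerSet.Iic a < q := by
    have := (smul_lt_iff hm (a⁻¹) _ _).2 hg2
    rw [hIic, hg.right] at this
    simpa using this
  have hfq : b⁻¹ • q ≤ LowerSet.Iic a := by
    by_contra hlt'
    have h3 : b • LowerSet.Iic a < q := by
      have := (smul_lt_iff hm b _ _).2 (not_le.1 hlt')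
      simpa using this
    obtain ⟨n, hn⟩ := tends_right hm hg hg1 hg2 (hdir _ hg1 hg2) h3
    rw [hpow] at hn
    have h4 := (smul_lt_iff hm b⁻¹ _ _).2 hn
    rw [inv_smul_smul, hIic] at h4
    simp only [inv_inv] at h4
    exact absurd (h4.trans_le (hle' _ _ (hab n))) (lt_irrefl _)
  have hfq' : b⁻¹ • q < q := hfq.trans_lt hgr
  obtain ⟨p, b', hf, hf1, hf2⟩ := exists_comp hm hfq'.ne
  have hdirf : ∀ z, p < z → z < b' → b⁻¹ • z < z := by
    rcases direction hm hf with hd | hd
    · exact absurd ((hd _ hf1 hf2).trans hfq') (lt_irrefl _)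
    · exact hd
  have hf1' : LowerSet.Iic (1 : G) < b⁻¹ • LowerSet.Iic (1 : G) := by
    rw [hIic]
    simpa using hlt _ _ hb
  have hp1 : LowerSet.Iic (1 : G) ≤ p := by
    by_contra hlt'
    have := hdirf _ (not_le.1 hlt') (hg2.trans hf2)
    exact absurd (this.trans hf1') (lt_irrefl _)
  have hp2 : LowerSet.Iic (1 : G) < p := by
    refine lt_of_le_of_ne hp1 ?_
    intro h
    rw [h, hf.left] at hf1'
    exact absurd hf1' (lt_irrefl _)
  exact no_cross hm hE hg hf (hg1.trans hp2) hf1 hf2

end Pool.Agent.Helper19.Engel
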