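import Mathlib

set_option autoImplicit false

/-!
Order preserving actions of k-Engel groups on complete linear orders have no crossed components.
-/

namespace Pool.Agent.Helper19.Engel

open Filter

variable {Ω : Type*} [CompleteLinearOrder Ω] {G : Type*} [Group G] [MulAction G Ω]

/-- The action of `G` on `Ω` preserves the order. -/
def Mono (G Ω : Type*) [CompleteLinearOrder Ω] [Group G] [MulAction G Ω] : Prop :=
  ∀ (g : G) (a b : Ω), a ≤ b → g • a ≤ g • b

theorem smul_le_iff (hm : Mono G Ω) (g : G) (a b : Ω) : g • a ≤ g • b ↔ a ≤ b :=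
  ⟨fun h => by simpa using hm g⁻¹ _ _ h, hm g a b⟩

theorem smul_lt_iff (hm : Mono G Ω) (g : G) (a b : Ω) : g • a < g • b ↔ a < b := by
  rw [← not_le, ← not_le, smul_le_iff hm]

/-- The order automorphism given by a group element. -/
def iso (hm : Mono G Ω) (g : G) : Ω ≃o Ω where
  toEquiv := MulAction.toPerm g
  map_rel_iff' := by intro a b; exact smul_le_iff hm g a b

theorem iso_apply (hm : Mono G Ω) (g : G) (z : Ω) : iso hm g z = g • z := rfl

/-- `(p, b)` is a component of the complement of the fixed points of `y`. -/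
structure IsComp (y : G) (p b : Ω) : Prop where
  lt : p < b
  left : y • p = p
  right : y • b = b
  moves : ∀ z, p < z → z < b → y • z ≠ z

theorem IsComp.inv {y : G} {p b : Ω} (h : IsComp y p b) : IsComp y⁻¹ p b where
  lt := h.lt
  left := by rw [inv_smul_eq_iff, h.left]
  right := by rw [inv_smul_eq_iff, h.right]
  moves := by
    intro z hz1 hz2 hz
    rw [inv_smul_eq_iff] at hz
    exact h.moves z hz1 hz2 hz.symm

theorem IsComp.conj (hm : Mono G Ω) {y : G} {p b : Ω} (h : IsComp y p b) (s : G) :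
    IsComp (s * y * s⁻¹) (s • p) (s • b) where
  lt := (smul_lt_iff hm s _ _).2 h.lt
  left := by simp [mul_smul, h.left]
  right := by simp [mul_smul, h.right]
  moves := by
    intro z hz1 hz2 hz
    have h1 : p < s⁻¹ • z := by
      rw [← smul_lt_iff hm s]; simpa using hz1
    have h2 : s⁻¹ • z < b := by
      rw [← smul_lt_iff hm s]; simpa using hz2
    apply h.moves _ h1 h2
    rw [mul_smul, mul_smul] at hz
    rw [eq_inv_smul_iff]
    exact hz

theorem exists_comp (hm : Mono G Ω) {y : G} {z : Ω} (hz : y • z ≠ z) :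
    ∃ p b, IsComp y p b ∧ p < z ∧ z < b := by
  have hsup : ∀ S : Set Ω, (∀ w ∈ S, y • w = w) → y • sSup S = sSup S := by
    intro S hS
    have h1 : iso hm y (sSup S) = ⨆ a ∈ S, iso hm y a := OrderIso.map_sSup _ _
    rw [iso_apply] at h1
    rw [h1, sSup_eq_iSup]
    exact iSup_congr (fun a => iSup_congr (fun ha => hS a ha))
  have hinf : ∀ S : Set Ω, (∀ w ∈ S, y • w = w) → y • sInf S = sInf S := by
    intro S hS
    have h1 : iso hm y (sInf S) = ⨅ a ∈ S, iso hm y a := OrderIso.map_sInf _ _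
    rw [iso_apply] at h1
    rw [h1, sInf_eq_iInf]
    exact iInf_congr (fun a => iInf_congr (fun ha => hS a ha))
  set A : Set Ω := {w | w ≤ z ∧ y • w = w} with hA
  set B : Set Ω := {w | z ≤ w ∧ y • w = w} with hB
  have hA1 : y • sSup A = sSup A := hsup A (fun w hw => hw.2)
  have hB1 : y • sInf B = sInf B := hinf B (fun w hw => hw.2)
  have hA2 : sSup A ≤ z := sSup_le (fun w hw => hw.1)
  have hB2 : z ≤ sInf B := le_sInf (fun w hw => hw.1)
  have hA3 : sSup A < z := lt_of_le_of_ne hA2 (fun h => hz (by rw [h] at hA1; exact hA1))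
  have hB3 : z < sInf B := lt_of_le_of_ne hB2 (fun h => hz (by rw [← h] at hB1; exact hB1))
  refine ⟨sSup A, sInf B, ⟨hA3.trans hB3, hA1, hB1, ?_⟩, hA3, hB3⟩
  intro w hw1 hw2 hw
  rcases le_total w z with h | h
  · exact absurd (le_sSup (show w ∈ A from ⟨h, hw⟩)) (not_le.2 hw1)
  · exact absurd (sInf_le (show w ∈ B from ⟨h, hw⟩)) (not_le.2 hw2)

theorem pow_smul_mono_right (hm : Mono G Ω) {y : G} {z : Ω} (hz : z ≤ y • z) :
    Monotone (fun n : ℕ => y ^ n • z) := by
  apply monotone_nat_of_le_succ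
  intro n
  rw [pow_succ, mul_smul]
  exact hm _ _ _ hz

theorem pow_smul_anti (hm : Mono G Ω) {y : G} {z : Ω} (hz : y • z ≤ z) :
    Antitone (fun n : ℕ => y ^ n • z) := by
  apply antitone_nat_of_succ_le
  intro n
  rw [pow_succ, mul_smul]
  exact hm _ _ _ hz

omit [CompleteLinearOrder Ω] in
theorem pow_smul_fix {y : G} {b : Ω} (h : y • b = b) (n : ℕ) : y ^ n • b = b := by
  induction n with
  | zero => simp
  | succ n ih => rw [pow_succ, mul_smul, h, ih]

theorem tends_right (hm : Mono G Ω) {y : G} {p b z w : Ω} (h : IsComp y p b) (hz1 : p < z)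
    (hz2 : z < b) (hz : z < y • z) (hw : w < b) : ∃ n : ℕ, w < y ^ n • z := by
  set s : Ω := ⨆ n : ℕ, y ^ n • z with hs
  have hmono := pow_smul_mono_right hm hz.le
  have hys : y • s = s := by
    have h1 : iso hm y s = ⨆ n : ℕ, iso hm y (y ^ n • z) := OrderIso.map_iSup _ _
    rw [iso_apply] at h1
    rw [h1]
    apply le_antisymm
    · apply iSup_le
      intro n
      rw [iso_apply, ← mul_smul, ← pow_succ']
      exact le_iSup (fun n : ℕ => y ^ n • z) (n + 1)
    · apply iSup_le
      intro n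
      refine le_trans (hmono (Nat.le_succ n)) ?_
      have : y ^ (n + 1) • z = iso hm y (y ^ n • z) := by
        rw [iso_apply, ← mul_smul, ← pow_succ']
      show y ^ (n + 1) • z ≤ _
      rw [this]
      exact le_iSup (fun n : ℕ => iso hm y (y ^ n • z)) n
  have hsb : s ≤ b := by
    apply iSup_le
    intro n
    have : y ^ n • z ≤ y ^ n • b := hm _ _ _ hz2.le
    rwa [pow_smul_fix h.right] at this
  have hps : p < s := by
    refine lt_of_lt_of_le hz1 ?_
    have : y ^ 0 • z ≤ s := le_iSup (fun n : ℕ => y ^ n • z) 0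
    simpa using this
  have hsb' : s = b := by
    by_contra hne
    exact h.moves s hps (lt_of_le_of_ne hsb hne) hys
  rw [← hsb', hs] at hw
  exact lt_iSup_iff.1 hw

theorem tends_left (hm : Mono G Ω) {y : G} {p b z w : Ω} (h : IsComp y p b) (hz1 : p < z)
    (hz2 : z < b) (hz : y • z < z) (hw : p < w) : ∃ n : ℕ, y ^ n • z < w := by
  set s : Ω := ⨅ n : ℕ, y ^ n • z with hs
  have hanti := pow_smul_anti hm hz.le
  have hys : y • s = s := by
    have h1 : iso hm y s = ⨅ n : ℕ, iso hm y (y ^ n • z) := OrderIso.map_iInf _ _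
    rw [iso_apply] at h1
    rw [h1]
    apply le_antisymm
    · apply le_iInf
      intro n
      refine le_trans ?_ (hanti (Nat.le_succ n))
      have : y ^ (n + 1) • z = iso hm y (y ^ n • z) := by
        rw [iso_apply, ← mul_smul, ← pow_succ']
      show _ ≤ y ^ (n + 1) • z
      rw [this]
      exact iInf_le (fun n : ℕ => iso hm y (y ^ n • z)) n
    · apply le_iInf
      intro n
      rw [iso_apply, ← mul_smul, ← pow_succ']
      exact iInf_le (fun n : ℕ => y ^ n • z) (n + 1)
  have hsb : p ≤ s := by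
    apply le_iInf
    intro n
    have : y ^ n • p ≤ y ^ n • z := hm _ _ _ hz1.le
    rwa [pow_smul_fix h.left] at this
  have hps : s < b := by
    refine lt_of_le_of_lt ?_ hz2
    have : s ≤ y ^ 0 • z := iInf_le (fun n : ℕ => y ^ n • z) 0
    simpa using this
  have hsb' : s = p := by
    by_contra hne
    exact h.moves s (lt_of_le_of_ne hsb (Ne.symm hne)) hps hys
  rw [← hsb', hs] at hw
  exact iInf_lt_iff.1 hw

/-- On a component a homeomorphism moves all points in the same direction. -/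
theorem no_opposite (hm : Mono G Ω) {y : G} {p b z w : Ω} (h : IsComp y p b) (hz1 : p < z)
    (hw2 : w < b) (hzw : z ≤ w) (hz : z < y • z) (hw : y • w ≤ w) : False := by
  obtain ⟨n, hn⟩ := tends_right hm h hz1 (lt_of_le_of_lt hzw hw2) hz hw2
  have h1 : y ^ n • z ≤ y ^ n • w := hm _ _ _ hzw
  have h2 : y ^ n • w ≤ y ^ 0 • w := pow_smul_anti hm hw (Nat.zero_le n)
  rw [pow_zero, one_smul] at h2
  exact absurd (lt_of_lt_of_le hn (h1.trans h2)) (lt_irrefl _)

theorem direction (hm : Mono G Ω) {y : G} {p b : Ω} (h : IsComp y p b) :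
    (∀ z, p < z → z < b → z < y • z) ∨ (∀ z, p < z → z < b → y • z < z) := by
  by_contra hcon
  push Not at hcon
  obtain ⟨⟨w, hw1, hw2, hw⟩, ⟨z, hz1, hz2, hz⟩⟩ := hcon
  have hz' : z < y • z := lt_of_le_of_ne hz (fun e => h.moves z hz1 hz2 e.symm)
  have hw' : y • w < w := lt_of_le_of_ne hw (h.moves w hw1 hw2)
  rcases le_total z w with hzw | hwz
  · exact no_opposite hm h hz1 hw2 hzw hz' hw
  · have h1 : w < y⁻¹ • w := by
      rw [← smul_lt_iff hm y]; simpa using hw'
    have h2 : y⁻¹ • z ≤ z := by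
      rw [← smul_le_iff hm y]; simpa using hz
    exact no_opposite hm h.inv hw1 hz2 hwz h1 h2

theorem direction_inv_right (hm : Mono G Ω) {y : G} {p b : Ω}
    (h : ∀ z, p < z → z < b → z < y • z) (hc : IsComp y p b) :
    ∀ z, p < z → z < b → y⁻¹ • z < z := by
  intro z h1 h2
  rcases direction hm hc.inv with h' | h'
  · have h3 := h' z h1 h2
    have h4 := h z h1 h2
    have h5 : y • z < z := by
      have := (smul_lt_iff hm y _ _).2 h3
      simpa using this
    exact absurd (h4.trans h5) (lt_irrefl _)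
  · exact h' z h1 h2

theorem direction_inv_left (hm : Mono G Ω) {y : G} {p b : Ω}
    (h : ∀ z, p < z → z < b → y • z < z) (hc : IsComp y p b) :
    ∀ z, p < z → z < b → z < y⁻¹ • z := by
  intro z h1 h2
  rcases direction hm hc.inv with h' | h'
  · exact h' z h1 h2
  · have h3 := h' z h1 h2
    have h4 := h z h1 h2
    have h5 : z < y • z := by
      have := (smul_lt_iff hm y _ _).2 h3
      simpa using this
    exact absurd (h4.trans h5) (lt_irrefl _)

/-- The map whose iterates are the Engel commutators `[x, y, ..., y]`. -/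
def eng (y : G) : G → G := fun z => z⁻¹ * y⁻¹ * z * y

theorem stab_left_aux (hm : Mono G Ω) {k : ℕ} {x y : G} (hE : (eng y)^[k] x = 1) {p b : Ω}
    (h : IsComp y p b) (hdir : ∀ z, p < z → z < b → z < y⁻¹ • z) (hx : x • b = b)
    (hxp : p < x • p) : False := by
  have key : ∀ n : ℕ, ((eng y)^[n] x) • b = b ∧ p < ((eng y)^[n] x) • p := by
    intro n
    induction n with
    | zero => exact ⟨hx, hxp⟩
    | succ n ih =>
      rw [Function.iterate_succ_apply']
      set c := (eng y)^[n] x with hc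
      obtain ⟨ih1, ih2⟩ := ih
      have hcb : c • p < b := by
        have := (smul_lt_iff hm c _ _).2 h.lt
        rwa [ih1] at this
      have hcinv : c⁻¹ • b = b := by rw [inv_smul_eq_iff, ih1]
      have hyinv : y⁻¹ • b = b := by rw [inv_smul_eq_iff, h.right]
      constructor
      · simp only [eng, mul_smul]
        rw [h.right, ih1, hyinv, hcinv]
      · simp only [eng, mul_smul]
        rw [h.left]
        have h1 := hdir _ ih2 hcb
        have h2 := (smul_lt_iff hm c⁻¹ _ _).2 h1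
        simpa using h2
  have := (key k).2
  rw [hE, one_smul] at this
  exact lt_irrefl _ this

theorem stab_right_aux (hm : Mono G Ω) {k : ℕ} {x y : G} (hE : (eng y)^[k] x = 1) {p b : Ω}
    (h : IsComp y p b) (hdir : ∀ z, p < z → z < b → y⁻¹ • z < z) (hx : x • p = p)
    (hxp : x • b < b) : False := by
  have key : ∀ n : ℕ, ((eng y)^[n] x) • p = p ∧ ((eng y)^[n] x) • b < b := by
    intro n
    induction n with
    | zero => exact ⟨hx, hxp⟩
    | succ n ih =>
      rw [Function.iterate_succ_apply']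
      set c := (eng y)^[n] x with hc
      obtain ⟨ih1, ih2⟩ := ih
      have hcb : p < c • b := by
        have := (smul_lt_iff hm c _ _).2 h.lt
        rwa [ih1] at this
      have hcinv : c⁻¹ • p = p := by rw [inv_smul_eq_iff, ih1]
      have hyinv : y⁻¹ • p = p := by rw [inv_smul_eq_iff, h.left]
      constructor
      · simp only [eng, mul_smul]
        rw [h.left, ih1, hyinv, hcinv]
      · simp only [eng, mul_smul]
        rw [h.right]
        have h1 := hdir _ hcb ih2
        have h2 := (smul_lt_iff hm c⁻¹ _ _).2 h1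
        simpa using h2
  have := (key k).2
  rw [hE, one_smul] at this
  exact lt_irrefl _ this

/-- In a k-Engel group the stabilisers of the two end points of a component agree. -/
theorem stab_iff (hm : Mono G Ω) {k : ℕ} (hE : ∀ x y : G, (eng y)^[k] x = 1) {y : G} {p b : Ω}
    (h : IsComp y p b) (x : G) : x • p = p ↔ x • b = b := by
  constructor
  · intro hx
    by_contra hne
    have hx' : x⁻¹ • p = p := by rw [inv_smul_eq_iff, hx]
    have main : ∀ x : G, x • p = p → x • b < b → False := by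
      intro x hx hxb
      rcases direction hm h with hd | hd
      · exact stab_right_aux hm (hE x y) h (direction_inv_right hm hd h) hx hxb
      · have hd' : ∀ z, p < z → z < b → (y⁻¹)⁻¹ • z < z := by
          simpa using hd
        exact stab_right_aux hm (hE x y⁻¹) h.inv hd' hx hxb
    rcases lt_or_gt_of_ne hne with hlt | hgt
    · exact main x hx hlt
    · apply main x⁻¹ hx'
      rw [← smul_lt_iff hm x]
      simpa using hgt
  · intro hx
    by_contra hne
    have hx' : x⁻¹ • b = b := by rw [inv_smul_eq_iff, hx]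
    have main : ∀ x : G, x • b = b → p < x • p → False := by
      intro x hx hxb
      rcases direction hm h with hd | hd
      · have hd' : ∀ z, p < z → z < b → z < (y⁻¹)⁻¹ • z := by
          simpa using hd
        exact stab_left_aux hm (hE x y⁻¹) h.inv hd' hx hxb
      · exact stab_left_aux hm (hE x y) h (direction_inv_left hm hd h) hx hxb
    rcases lt_or_gt_of_ne hne with hlt | hgt
    · apply main x⁻¹ hx'
      rw [← smul_lt_iff hm x]
      simpa using hlt
    · exact main x hx hgt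

/-- `z j` stays in a compact part of a component of `t` which contains a fixed point of `y` and
whose end points are moved by `y`. -/
def Near (y t : G) (z : ℕ → Ω) : Prop :=
  ∃ k1 k2 u v κ : Ω, IsComp t k1 k2 ∧ k1 < u ∧ v < k2 ∧ k1 < κ ∧ κ < k2 ∧ y • κ = κ ∧
    y • k1 ≠ k1 ∧ y • k2 ≠ k2 ∧ ∀ᶠ j in atTop, u ≤ z j ∧ z j ≤ v

theorem step_right (hm : Mono G Ω) {k : ℕ} (hE : ∀ x y : G, (eng y)^[k] x = 1) {y t s : G}
    {k1 k2 u v κ : Ω} {z : ℕ → Ω} (ht : IsComp t k1 k2) (hs : IsComp s k1 k2)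
    (hdir : ∀ z, k1 < z → z < k2 → z < s • z)
    (hu : k1 < u) (hv : v < k2) (hκ1 : k1 < κ) (hκ2 : κ < k2) (hyκ : y • κ = κ)
    (hy2 : y • k2 ≠ k2) (hz : ∀ᶠ j in atTop, u ≤ z j ∧ z j ≤ v) :
    Near t y (fun j => s ^ j • z j) := by
  obtain ⟨c1, c2, hc, hc1, hc2⟩ := exists_comp hm hy2
  have htc1 : t • c1 ≠ c1 := by
    intro hfix
    have h1 : c1 ≤ k1 := by
      by_contra hlt
      exact ht.moves c1 (not_le.1 hlt) hc1 hfix
    exact hc.moves κ (lt_of_le_of_lt h1 hκ1) (hκ2.trans hc2) hyκ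
  have htc2 : t • c2 ≠ c2 := fun hfix => htc1 ((stab_iff hm hE hc t).2 hfix)
  have huk : u < k2 := by
    obtain ⟨j, hj1, hj2⟩ := hz.exists
    exact lt_of_le_of_lt (hj1.trans hj2) hv
  obtain ⟨N, hN⟩ := tends_right hm hs hu huk (hdir u hu huk) hc1
  refine ⟨c1, c2, s ^ N • u, k2, k2, hc, hN, hc2, hc1, hc2, ht.right, htc1, htc2, ?_⟩
  filter_upwards [hz, eventually_ge_atTop N] with j hj hjN
  constructor
  · have h1 : s ^ N • u ≤ s ^ j • u := pow_smul_mono_right hm (hdir u hu huk).le hjN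
    exact h1.trans (hm _ _ _ hj.1)
  · have h1 : s ^ j • z j ≤ s ^ j • k2 := hm _ _ _ (hj.2.trans hv.le)
    rwa [pow_smul_fix hs.right] at h1

theorem step_left (hm : Mono G Ω) {k : ℕ} (hE : ∀ x y : G, (eng y)^[k] x = 1) {y t s : G}
    {k1 k2 u v κ : Ω} {z : ℕ → Ω} (ht : IsComp t k1 k2) (hs : IsComp s k1 k2)
    (hdir : ∀ z, k1 < z → z < k2 → s • z < z)
    (hu : k1 < u) (hv : v < k2) (hκ1 : k1 < κ) (hκ2 : κ < k2) (hyκ : y • κ = κ)
    (hy1 : y • k1 ≠ k1) (hz : ∀ᶠ j in atTop, u ≤ z j ∧ z j ≤ v) :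
    Near t y (fun j => s ^ j • z j) := by
  obtain ⟨c1, c2, hc, hc1, hc2⟩ := exists_comp hm hy1
  have htc2 : t • c2 ≠ c2 := by
    intro hfix
    have h1 : k2 ≤ c2 := by
      by_contra hlt
      exact ht.moves c2 hc2 (not_le.1 hlt) hfix
    exact hc.moves κ (hc1.trans hκ1) (lt_of_lt_of_le hκ2 h1) hyκ
  have htc1 : t • c1 ≠ c1 := fun hfix => htc2 ((stab_iff hm hE hc t).1 hfix)
  have hvk : k1 < v := by
    obtain ⟨j, hj1, hj2⟩ := hz.exists
    exact lt_of_lt_of_le hu (hj1.trans hj2)
  obtain ⟨N, hN⟩ := tends_left hm hs hvk hv (hdir v hvk hv) hc2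
  refine ⟨c1, c2, k1, s ^ N • v, k1, hc, hc1, hN, hc1, hc2, ht.left, htc1, htc2, ?_⟩
  filter_upwards [hz, eventually_ge_atTop N] with j hj hjN
  constructor
  · have h1 : s ^ j • k1 ≤ s ^ j • z j := hm _ _ _ (hu.le.trans hj.1)
    rwa [pow_smul_fix hs.left] at h1
  · have h1 : s ^ j • v ≤ s ^ N • v := pow_smul_anti hm (hdir v hvk hv).le hjN
    exact (hm _ _ _ hj.2).trans h1

theorem Near.step (hm : Mono G Ω) {k : ℕ} (hE : ∀ x y : G, (eng y)^[k] x = 1) {y t s : G}
    {z : ℕ → Ω} (h : Near y t z) (hst : s = t ∨ s = t⁻¹) : Near t y (fun j => s ^ j • z j) := by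
  obtain ⟨k1, k2, u, v, κ, ht, hu, hv, hκ1, hκ2, hyκ, hy1, hy2, hz⟩ := h
  have hs : IsComp s k1 k2 := by
    rcases hst with rfl | rfl
    · exact ht
    · exact ht.inv
  rcases direction hm hs with hd | hd
  · exact step_right hm hE ht hs hd hu hv hκ1 hκ2 hyκ hy2 hz
  · exact step_left hm hE ht hs hd hu hv hκ1 hκ2 hyκ hy1 hz

/-- The iterated conjugates `T 0 = t`, `T (n+1) = T n * y * (T n)⁻¹`. -/
def T (t y : G) : ℕ → G
  | 0 => t
  | n + 1 => T t y n * y * (T t y n)⁻¹

theorem Near.T (hm : Mono G Ω) {k : ℕ} (hE : ∀ x y : G, (eng y)^[k] x = 1) {y t : G} (n : ℕ) :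
    ∀ z : ℕ → Ω, Near y t z →
      Near t y (fun j => Engel.T (t ^ j) (y ^ j) n • z j) ∧
      Near t y (fun j => (Engel.T (t ^ j) (y ^ j) n)⁻¹ • z j) := by
  induction n with
  | zero =>
    intro z hz
    constructor
    · exact hz.step hm hE (Or.inl rfl)
    · have := hz.step hm hE (s := t⁻¹) (Or.inr rfl)
      simpa [Engel.T, inv_pow] using this
  | succ n ih =>
    intro z hz
    have h1 := (ih z hz).2
    constructor
    · have h2 : Near y t (fun j => y ^ j • ((Engel.T (t ^ j) (y ^ j) n)⁻¹ • z j)) :=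
        h1.step hm hE (Or.inl rfl)
      have h3 := (ih _ h2).1
      simpa only [Engel.T, mul_smul] using h3
    · have h2 : Near y t (fun j => y⁻¹ ^ j • ((Engel.T (t ^ j) (y ^ j) n)⁻¹ • z j)) :=
        h1.step hm hE (Or.inr rfl)
      have h3 := (ih _ h2).1
      have e : ∀ j : ℕ, (Engel.T (t ^ j) (y ^ j) (n + 1))⁻¹ • z j =
          Engel.T (t ^ j) (y ^ j) n • (y⁻¹ ^ j • ((Engel.T (t ^ j) (y ^ j) n)⁻¹ • z j)) := by
        intro j
        simp only [← mul_smul]
        congr 1
        simp only [Engel.T]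
        rw [inv_pow]
        group
      simp only [e]
      exact h3

theorem conj_eng (x y : G) (n : ℕ) :
    ((eng y)^[n] x)⁻¹ * y * ((eng y)^[n] x) = (y ^ n)⁻¹ * T (x⁻¹ * y * x) y n * y ^ n := by
  induction n with
  | zero => simp [T]
  | succ n ih =>
    rw [Function.iterate_succ_apply']
    set c := (eng y)^[n] x with hc
    set a := y ^ n with ha
    set τ := T (x⁻¹ * y * x) y n with hτ
    have hay : a * y * a⁻¹ = y := by
      rw [ha]
      have : y ^ n * y = y * y ^ n := (pow_succ y n).symm.trans (pow_succ' y n)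
      rw [this]
      group
    have e1 : (eng y c)⁻¹ * y * (eng y c) = y⁻¹ * (c⁻¹ * y * c) * y * (c⁻¹ * y * c)⁻¹ * y := by
      simp only [eng]
      group
    rw [e1, ih]
    have e2 : y⁻¹ * (a⁻¹ * τ * a) * y * (a⁻¹ * τ * a)⁻¹ * y
        = y⁻¹ * a⁻¹ * τ * (a * y * a⁻¹) * τ⁻¹ * a * y := by group
    rw [e2, hay]
    have e3 : T (x⁻¹ * y * x) y (n + 1) = τ * y * τ⁻¹ := rfl
    rw [e3, pow_succ, ← ha]
    group

theorem T_eq {k : ℕ} {x y : G} (hE : (eng y)^[k] x = 1) : T (x⁻¹ * y * x) y k = y := by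
  have h := conj_eng x y k
  rw [hE] at h
  have h2 : T (x⁻¹ * y * x) y k = y ^ k * y * (y ^ k)⁻¹ := by
    have h3 : (y ^ k) * ((y ^ k)⁻¹ * T (x⁻¹ * y * x) y k * y ^ k) * (y ^ k)⁻¹
        = T (x⁻¹ * y * x) y k := by group
    rw [← h3, ← h]
    group
  rw [h2]
  have : y ^ k * y = y * y ^ k := (pow_succ y k).symm.trans (pow_succ' y k)
  rw [this]
  group

theorem no_near (hm : Mono G Ω) {k : ℕ} (hE : ∀ x y : G, (eng y)^[k] x = 1) {x y : G} {κ : Ω}
    (hκ : y • κ = κ) (h : Near y (x⁻¹ * y * x) (fun _ => κ)) : False := by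
  obtain ⟨k1, k2, u, v, κ', ht, hu, hv, -, -, -, -, -, hz⟩ := (h.T hm hE k _).1
  obtain ⟨j, hj1, hj2⟩ := hz.exists
  have h1 : T ((x⁻¹ * y * x) ^ j) (y ^ j) k = y ^ j := by
    have h2 : (x⁻¹ * y * x) ^ j = x⁻¹ * y ^ j * x := by
      have := conj_pow (a := x⁻¹) (b := y) (i := j)
      simpa using this
    rw [h2]
    exact T_eq (hE x (y ^ j))
  beta_reduce at hj1 hj2
  rw [h1] at hj1 hj2
  rw [pow_smul_fix hκ] at hj1 hj2
  exact ht.moves κ (lt_of_lt_of_le hu hj1) (lt_of_le_of_lt hj2 hv) hκ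

/-- Order preserving actions of k-Engel groups have no crossings. -/
theorem no_cross (hm : Mono G Ω) {k : ℕ} (hE : ∀ x y : G, (eng y)^[k] x = 1) {f g : G}
    {p b a q : Ω} (hf : IsComp f p b) (hg : IsComp g a q) (h1 : p < a) (h2 : a < b)
    (h3 : b < q) : False := by
  have hfa : f • a ≠ a := hf.moves a h1 h2
  have hfq : f • q ≠ q := fun hfix => hfa ((stab_iff hm hE hg f).2 hfix)
  obtain ⟨e, e', hE', he1, he2⟩ := exists_comp hm hfq
  have hbe : b ≤ e := by
    by_contra hlt
    exact hE'.moves b (not_le.1 hlt) (h3.trans he2) hf.right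
  -- choose s moving b to the right
  obtain ⟨s, hs, hsdir⟩ : ∃ s : G, IsComp s a q ∧ ∀ z, a < z → z < q → z < s • z := by
    rcases direction hm hg with hd | hd
    · exact ⟨g, hg, hd⟩
    · exact ⟨g⁻¹, hg.inv, direction_inv_left hm hd hg⟩
  obtain ⟨n, hn⟩ := tends_right hm hs h2 h3 (hsdir b h2 h3) he1
  have hK : IsComp (s ^ n * f * (s ^ n)⁻¹) (s ^ n • p) (s ^ n • b) := hf.conj hm (s ^ n)
  have hKleft : s ^ n • p < e := by
    have h4 : s ^ n • p < s ^ n • a := (smul_lt_iff hm _ _ _).2 h1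
    rw [pow_smul_fix hs.left] at h4
    exact h4.trans (h2.trans_le hbe)
  have hKright : s ^ n • b < q := by
    have h4 : s ^ n • b < s ^ n • q := (smul_lt_iff hm _ _ _).2 h3
    rwa [pow_smul_fix hs.right] at h4
  have hmr : f • (s ^ n • b) ≠ s ^ n • b := hE'.moves _ hn (hKright.trans he2)
  have hml : f • (s ^ n • p) ≠ s ^ n • p := fun hfix => hmr ((stab_iff hm hE hK f).1 hfix)
  have hnear : Near f ((((s ^ n)⁻¹)⁻¹ * f * (s ^ n)⁻¹)) (fun _ => e) := by
    refine ⟨s ^ n • p, s ^ n • b, e, e, e, ?_, hKleft, hn, hKleft, hn, hE'.left, hml, hmr, ?_⟩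
    · simpa using hK
    · exact Eventually.of_forall (fun _ => ⟨le_rfl, le_rfl⟩)
  exact no_near hm hE (x := (s ^ n)⁻¹) hE'.left hnear

end Pool.Agent.Helper19.Engel
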